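import Mathlib
import Pool.Agent.Helper82.IW.Goals

/-!
# Packet K1 of project IW (MP_f7b570_an)
-/

open Complex MeasureTheory Set Filter Topology
open scoped ContDiff ComplexConjugate

namespace Pool.Agent.Helper40.IW

open Pool.Agent.Helper82.IW

lemma line {E : Type*} [NormedAddCommGroup E] [NormedSpace ℝ E] {f : ℂ → E} {z : ℂ} (e : ℂ)
    (hf : DifferentiableAt ℝ f z) :
    HasDerivAt (fun t : ℝ => f (z + t • e)) (fderiv ℝ f z e) 0 := by
  have h1 : HasFDerivAt f (fderiv ℝ f z) (z + (0 : ℝ) • e) := by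
    simpa using hf.hasFDerivAt
  have h2 : HasDerivAt (fun t : ℝ => z + t • e) e 0 := by
    simpa using ((hasDerivAt_id (0 : ℝ)).smul_const e).const_add z
  exact h1.comp_hasDerivAt 0 h2

lemma fdT {τ R : ℂ → ℝ} {H : ℂ → ℂ} {z : ℂ} (e : ℂ) (hτ : DifferentiableAt ℝ τ z)
    (hR : DifferentiableAt ℝ R z) (hH : DifferentiableAt ℝ H z) (hR0 : R z ≠ 0)
    (hT : DifferentiableAt ℝ (fun z => ((1 - τ z * 1 : ℝ) : ℂ) * (H z / (R z : ℂ))) z) :
    fderiv ℝ (fun z => ((1 - τ z * 1 : ℝ) : ℂ) * (H z / (R z : ℂ))) z e =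
      ((-(fderiv ℝ τ z e) : ℝ) : ℂ) * (H z / (R z : ℂ)) +
        ((1 - τ z : ℝ) : ℂ) *
          ((fderiv ℝ H z e * (R z : ℂ) - H z * ((fderiv ℝ R z e : ℝ) : ℂ)) / (R z : ℂ) ^ 2) := by
  have h1 := line e hT
  have h2 := line e hτ
  have h3 := line e hR
  have h4 := line e hH
  have h5 : HasDerivAt (fun t : ℝ => ((1 - τ (z + t • e) * 1 : ℝ) : ℂ))
      ((-(fderiv ℝ τ z e) : ℝ) : ℂ) 0 := by
    have := ((h2.mul_const (1 : ℝ)).const_sub (1 : ℝ)).ofReal_comp
    simpa using this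
  have h6 : HasDerivAt (fun t : ℝ => H (z + t • e) / (R (z + t • e) : ℂ))
      ((fderiv ℝ H z e * (R z : ℂ) - H z * ((fderiv ℝ R z e : ℝ) : ℂ)) / (R z : ℂ) ^ 2) 0 := by
    have hr := h3.ofReal_comp
    have hne : ((R (z + (0 : ℝ) • e) : ℝ) : ℂ) ≠ 0 := by
      simpa using hR0
    have := h4.div hr hne
    simp only [zero_smul, add_zero] at this
    exact this
  have h7 := h5.mul h6
  have h8 := h1.unique h7
  rw [h8]
  simp

lemma contDx {E : Type*} [NormedAddCommGroup E] [NormedSpace ℝ E] {f : ℂ → E} (hf : SP f) :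
    Continuous (dx f) := by
  have h := hf.smooth.continuous_fderiv (by simp)
  exact h.clm_apply continuous_const

lemma contDy {E : Type*} [NormedAddCommGroup E] [NormedSpace ℝ E] {f : ℂ → E} (hf : SP f) :
    Continuous (dy f) := by
  have h := hf.smooth.continuous_fderiv (by simp)
  exact h.clm_apply continuous_const

lemma diffAt {E : Type*} [NormedAddCommGroup E] [NormedSpace ℝ E] {f : ℂ → E} (hf : SP f)
    (z : ℂ) : DifferentiableAt ℝ f z :=
  (hf.smooth.differentiable (by simp)) z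

lemma isCompact_Q : IsCompact Q := isCompact_Icc.reProdIm isCompact_Icc

lemma intQ {E : Type*} [NormedAddCommGroup E] {f : ℂ → E} (hf : Continuous f) :
    IntegrableOn f Q volume := hf.continuousOn.integrableOn_compact isCompact_Q

lemma Rr_pos {ε : ℝ} (hε : 0 < ε) (H : ℂ → ℂ) (z : ℂ) : 0 < Rr ε H z := by
  unfold Rr
  positivity

lemma ta_nonneg {ν ρ r : ℝ} (hρ : 0 < ρ) (hr : 0 < r) : 0 ≤ ta ν ρ r := by
  unfold ta
  positivity

lemma ta_le_one {ν ρ r : ℝ} (hρ : 0 < ρ) (hr : 0 < r) : ta ν ρ r ≤ 1 := by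
  unfold ta
  have : 0 ≤ (r / ρ) ^ (2 * ν) := by positivity
  rw [div_le_one (by positivity)]
  linarith

/-- the pointwise identity for one direction. -/
lemma one_dir {H hx : ℂ} {R τ rx τx m : ℝ} (hR : 0 < R) (hrx : rx = (conj H * hx).re / R)
    (hτx : τx = -m * rx) :
    (conj (((-τx : ℝ) : ℂ) * (H / (R : ℂ)) +
        ((1 - τ : ℝ) : ℂ) * ((hx * (R : ℂ) - H * (rx : ℂ)) / (R : ℂ) ^ 2)) * hx).re =
      (1 - τ) * ((‖hx‖ ^ 2 - rx ^ 2) / R) + m * rx ^ 2 := by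
  have hRR : R * rx = (conj H * hx).re := by
    rw [hrx]; field_simp
  have e1 : conj (((-τx : ℝ) : ℂ) * (H / (R : ℂ)) +
        ((1 - τ : ℝ) : ℂ) * ((hx * (R : ℂ) - H * (rx : ℂ)) / (R : ℂ) ^ 2)) * hx =
      ((-τx / R - (1 - τ) * rx / R ^ 2 : ℝ) : ℂ) * (conj H * hx) +
        (((1 - τ) / R : ℝ) : ℂ) * (conj hx * hx) := by
    have hRc : (R : ℂ) ≠ 0 := by exact_mod_cast hR.ne'
    simp only [map_add, map_mul, map_div₀, map_sub, map_pow, Complex.conj_ofReal]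
    push_cast
    field_simp
    ring
  rw [e1, Complex.add_re, Complex.re_ofReal_mul, Complex.re_ofReal_mul, ← hRR]
  have e2 : (conj hx * hx).re = ‖hx‖ ^ 2 := by
    rw [mul_comm, Complex.mul_conj, Complex.ofReal_re, Complex.normSq_eq_norm_sq]
  rw [e2, hτx]
  field_simp
  ring

theorem K1 (hSPB : S_SPB) (hIB : S_IB) (hQ : S_QUAD) : Pool.Agent.Helper82.IW.S_K1 := by
  intro ε ν ρ H hε hν hρ hH
  obtain ⟨h1, h2, h3, h4⟩ := hSPB
  obtain ⟨hi1, _⟩ := hIB
  obtain ⟨hRs, hRx, hRy⟩ := h2 ε H hε hH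
  obtain ⟨hτs, hτx, hτy⟩ := h3 ε ν ρ H hε hρ hH
  have hone : SP (fun _ : ℂ => (1 : ℝ)) := ⟨contDiff_const, fun z => ⟨rfl, rfl⟩⟩
  have hT := h4 ε ν ρ H (fun _ => 1) hε hρ hH hone
  obtain ⟨hHx, hHy, hHl, -, -, -, -, -⟩ := h1 H hH
  set T : ℂ → ℂ := Bf ε ν ρ (fun _ => 1) H with hTdef
  have hTe : T = fun z => ((1 - ta ν ρ (Rr ε H z) * 1 : ℝ) : ℂ) * (H z / (Rr ε H z : ℂ)) := rfl
  have hpos := Rr_pos hε H
  -- pointwise inequality
  have hpt : ∀ z, 2 * ν / Rr ε H z * (ta ν ρ (Rr ε H z) * (1 - ta ν ρ (Rr ε H z))) *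
      gr (Rr ε H) z ≤ (conj (dx T z) * dx H z + conj (dy T z) * dy H z).re := by
    intro z
    have hTd := diffAt hT z
    rw [hTe] at hTd
    have ex : dx T z = ((-(dx (fun z => ta ν ρ (Rr ε H z)) z) : ℝ) : ℂ) * (H z / (Rr ε H z : ℂ)) +
        ((1 - ta ν ρ (Rr ε H z) : ℝ) : ℂ) *
          ((dx H z * (Rr ε H z : ℂ) - H z * ((dx (Rr ε H) z : ℝ) : ℂ)) / (Rr ε H z : ℂ) ^ 2) := by
      rw [hTe]
      exact fdT (τ := fun z => ta ν ρ (Rr ε H z)) (R := Rr ε H) (H := H) 1 (diffAt hτs z)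
        (diffAt hRs z) (diffAt hH z) (hpos z).ne' hTd
    have ey : dy T z = ((-(dy (fun z => ta ν ρ (Rr ε H z)) z) : ℝ) : ℂ) * (H z / (Rr ε H z : ℂ)) +
        ((1 - ta ν ρ (Rr ε H z) : ℝ) : ℂ) *
          ((dy H z * (Rr ε H z : ℂ) - H z * ((dy (Rr ε H) z : ℝ) : ℂ)) / (Rr ε H z : ℂ) ^ 2) := by
      rw [hTe]
      exact fdT (τ := fun z => ta ν ρ (Rr ε H z)) (R := Rr ε H) (H := H) I (diffAt hτs z)
        (diffAt hRs z) (diffAt hH z) (hpos z).ne' hTd
    rw [Complex.add_re, ex, ey]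
    have q := (hQ (H z) (dx H z) (dy H z) (Rr ε H z) ε 0 0 0 1 0 0 hε rfl le_rfl zero_le_one
      zero_lt_one (by norm_num) le_rfl le_rfl le_rfl (by norm_num)).1
    rw [one_dir (m := 2 * ν / Rr ε H z * (ta ν ρ (Rr ε H z) * (1 - ta ν ρ (Rr ε H z))))
        (hpos z) (hRx z) (by rw [hτx z]; ring),
      one_dir (m := 2 * ν / Rr ε H z * (ta ν ρ (Rr ε H z) * (1 - ta ν ρ (Rr ε H z))))
        (hpos z) (hRy z) (by rw [hτy z]; ring)]
    rw [← hRx z, ← hRy z] at q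
    have t1 := ta_le_one (ν := ν) hρ (hpos z)
    have hgr : gr (Rr ε H) z = dx (Rr ε H) z ^ 2 + dy (Rr ε H) z ^ 2 := by
      unfold gr
      rw [Real.norm_eq_abs, Real.norm_eq_abs, sq_abs, sq_abs]
    rw [hgr]
    have hnn : 0 ≤ (1 - ta ν ρ (Rr ε H z)) * ((‖dx H z‖ ^ 2 + ‖dy H z‖ ^ 2 -
        (dx (Rr ε H) z ^ 2 + dy (Rr ε H) z ^ 2)) / Rr ε H z) :=
      mul_nonneg (by linarith) (div_nonneg q (hpos z).le)
    have key : (1 - ta ν ρ (Rr ε H z)) * ((‖dx H z‖ ^ 2 - dx (Rr ε H) z ^ 2) / Rr ε H z) +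
        2 * ν / Rr ε H z * (ta ν ρ (Rr ε H z) * (1 - ta ν ρ (Rr ε H z))) * dx (Rr ε H) z ^ 2 +
        ((1 - ta ν ρ (Rr ε H z)) * ((‖dy H z‖ ^ 2 - dy (Rr ε H) z ^ 2) / Rr ε H z) +
        2 * ν / Rr ε H z * (ta ν ρ (Rr ε H z) * (1 - ta ν ρ (Rr ε H z))) * dy (Rr ε H) z ^ 2) =
        (1 - ta ν ρ (Rr ε H z)) * ((‖dx H z‖ ^ 2 + ‖dy H z‖ ^ 2 -
        (dx (Rr ε H) z ^ 2 + dy (Rr ε H) z ^ 2)) / Rr ε H z) +
        2 * ν / Rr ε H z * (ta ν ρ (Rr ε H z) * (1 - ta ν ρ (Rr ε H z))) *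
          (dx (Rr ε H) z ^ 2 + dy (Rr ε H) z ^ 2) := by
      ring
    rw [key]
    linarith
  -- the bound of T
  have hTn : ∀ z, ‖T z‖ ≤ 1 := by
    intro z
    rw [hTe]
    have t0 := ta_nonneg (ν := ν) hρ (hpos z)
    have t1 := ta_le_one (ν := ν) hρ (hpos z)
    simp only
    rw [norm_mul, norm_div, Complex.norm_real, Complex.norm_real, Real.norm_eq_abs,
      Real.norm_eq_abs, abs_of_pos (hpos z), mul_one,
      abs_of_nonneg (by linarith : (0 : ℝ) ≤ 1 - ta ν ρ (Rr ε H z))]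
    have hle : ‖H z‖ ≤ Rr ε H z := by
      unfold Rr
      apply Real.le_sqrt_of_sq_le
      nlinarith [sq_nonneg ε]
    have hdiv : ‖H z‖ / Rr ε H z ≤ 1 := by
      rw [div_le_one (hpos z)]; exact hle
    calc (1 - ta ν ρ (Rr ε H z)) * (‖H z‖ / Rr ε H z) ≤ 1 * 1 := by
          apply mul_le_mul (by linarith) hdiv (by have := hpos z; positivity) zero_le_one
      _ = 1 := one_mul 1
  -- continuity
  have cR := hRs.smooth.continuous
  have cτ := hτs.smooth.continuous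
  have cRx := contDx hRs
  have cRy := contDy hRs
  have cH := hH.smooth.continuous
  have cHx := contDx hH
  have cHy := contDy hH
  have cT := hT.smooth.continuous
  have cTx := contDx hT
  have cTy := contDy hT
  have cHl := hHl.smooth.continuous
  have i1 : IntegrableOn (fun z => 2 * ν / Rr ε H z *
      (ta ν ρ (Rr ε H z) * (1 - ta ν ρ (Rr ε H z))) * gr (Rr ε H) z) Q volume := by
    apply intQ
    have c1 : Continuous (fun z => 2 * ν / Rr ε H z) := continuous_const.div cR (fun z => (hpos z).ne')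
    have c2 : Continuous (fun z => gr (Rr ε H) z) := by
      unfold gr
      exact (cRx.norm.pow 2).add (cRy.norm.pow 2)
    exact (c1.mul (cτ.mul (continuous_const.sub cτ))).mul c2
  have i2 : IntegrableOn (fun z => (conj (dx T z) * dx H z + conj (dy T z) * dy H z).re) Q volume := by
    apply intQ
    exact Complex.continuous_re.comp (((Complex.continuous_conj.comp cTx).mul cHx).add
      ((Complex.continuous_conj.comp cTy).mul cHy))
  have i3 : IntegrableOn (fun z => -(conj (T z) * (2 * hl H z)).re) Q volume := by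
    apply intQ
    exact (Complex.continuous_re.comp ((Complex.continuous_conj.comp cT).mul
      (continuous_const.mul cHl))).neg
  have i4 : IntegrableOn (fun z => 2 * ‖hl H z‖) Q volume := by
    apply intQ
    exact continuous_const.mul cHl.norm
  calc ∫ z in Q, 2 * ν / Rr ε H z * (ta ν ρ (Rr ε H z) * (1 - ta ν ρ (Rr ε H z))) *
        gr (Rr ε H) z
      ≤ ∫ z in Q, (conj (dx T z) * dx H z + conj (dy T z) * dy H z).re :=
        setIntegral_mono i1 i2 hpt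
    _ = ∫ z in Q, -(conj (T z) * (2 * hl H z)).re := by
        rw [integral_neg, hi1 T H hT hH, neg_neg]
    _ ≤ ∫ z in Q, 2 * ‖hl H z‖ := by
        apply setIntegral_mono i3 i4
        intro z
        simp only
        calc -(conj (T z) * (2 * hl H z)).re ≤ ‖conj (T z) * (2 * hl H z)‖ := by
              have := Complex.abs_re_le_norm (conj (T z) * (2 * hl H z))
              exact (neg_le_abs _).trans this
          _ = ‖T z‖ * (2 * ‖hl H z‖) := by
              rw [norm_mul, norm_mul, Complex.norm_conj, Complex.norm_two]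
          _ ≤ 1 * (2 * ‖hl H z‖) := by
              apply mul_le_mul_of_nonneg_right (hTn z) (by positivity)
          _ = 2 * ‖hl H z‖ := one_mul _

end Pool.Agent.Helper40.IW
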